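import Pool.Agent.H16.Rigid2

namespace Pool.Agent.Results.MP_409c19_co.Rigid21

open Pool.Agent.H16.Rigid

theorem result : ∃ inc : Fin 21 → Fin 21 → Prop, (∀ p, {l | inc p l}.ncard = 4) ∧
    (∀ l, {p | inc p l}.ncard = 4) ∧ Nonempty (PReal inc) ∧ ∀ R R' : PReal inc, ProjEquiv R R' :=
  main

end Pool.Agent.Results.MP_409c19_co.Rigid21
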